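import Pool.Agent.R793.MR.Stm

/-! Piece MR-CH for MP_e79d62_co: the character `(-1) ^ Tr` of the fixed field. -/

set_option autoImplicit false

open Finset

namespace Pool.Agent.R916.MR

open Pool.Agent.R793.MR

section
variable {K : Type} [Field K] [Fintype K] [CharP K 2] (σ : K ≃+* K)

/-- the additive group of the fixed field -/
def FA : AddSubgroup K where
  carrier := {x | σ x = x}
  add_mem' := fun {a b} ha hb => by
    show σ (a + b) = a + b
    rw [map_add, show σ a = a from ha, show σ b = b from hb]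
  zero_mem' := map_zero σ
  neg_mem' := fun {a} ha => by
    show σ (-a) = -a
    rw [map_neg, show σ a = a from ha]

lemma mem_FA {x : K} : x ∈ FA σ ↔ σ x = x := Iff.rfl

/-- `y ↦ y ^ 2 + y` -/
def ph : FA σ →+ FA σ where
  toFun y := ⟨(y : K) ^ 2 + y, by
    have hy : σ (y : K) = y := y.2
    rw [mem_FA, map_add, map_pow, hy]⟩
  map_zero' := by
    apply Subtype.ext
    simp
  map_add' a b := by
    apply Subtype.ext
    show ((a : K) + b) ^ 2 + ((a : K) + b) = ((a : K) ^ 2 + a) + ((b : K) ^ 2 + b)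
    have h2 : (2 : K) = 0 := CharTwo.two_eq_zero
    linear_combination ((a : K) * b) * h2

lemma ph_coe (y : FA σ) : ((ph σ y : FA σ) : K) = (y : K) ^ 2 + y := rfl

lemma card_ker : Nat.card (ph σ).ker = 2 := by
  have h2 : (2 : K) = 0 := CharTwo.two_eq_zero
  have h1 : (1 : K) ∈ FA σ := map_one σ
  have key : ((ph σ).ker : Set (FA σ)) = {0, ⟨1, h1⟩} := by
    ext y
    rw [SetLike.mem_coe, AddMonoidHom.mem_ker, Set.mem_insert_iff, Set.mem_singleton_iff]
    constructor
    · intro h
      have h3 : (y : K) ^ 2 + y = 0 := congrArg Subtype.val h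
      have h4 : (y : K) * (y + 1) = 0 := by linear_combination h3
      rcases mul_eq_zero.1 h4 with h5 | h5
      · left; exact Subtype.ext h5
      · right
        apply Subtype.ext
        show (y : K) = 1
        linear_combination h5 - h2
    · rintro (h | h)
      · rw [h]; exact map_zero _
      · rw [h]
        apply Subtype.ext
        show (1 : K) ^ 2 + 1 = 0
        linear_combination h2
  have h3 : Nat.card (ph σ).ker = Set.ncard ((ph σ).ker : Set (FA σ)) := rfl
  rw [h3, key, Set.ncard_pair]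
  intro h
  have : (0 : K) = 1 := congrArg Subtype.val h
  exact zero_ne_one this

lemma index_range : (ph σ).range.index = 2 := by
  have h1 := AddSubgroup.index_ker (ph σ)
  have h2 := AddSubgroup.card_mul_index (ph σ).ker
  have h3 := AddSubgroup.card_mul_index (ph σ).range
  rw [card_ker, h1] at h2
  rw [← h2, mul_comm 2] at h3
  exact Nat.eq_of_mul_eq_mul_left Nat.card_pos h3

end

theorem stmCH : StmCH := by
  intro K _ _ _ σ h8 h4
  classical
  have h2 : (2 : K) = 0 := CharTwo.two_eq_zero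
  set χ : K → ℤ := fun x => if ∃ y, σ y = y ∧ y ^ 2 + y = x then 1 else -1 with hχ
  have hmem : ∀ (x : K) (hx : σ x = x),
      (∃ y, σ y = y ∧ y ^ 2 + y = x) ↔ (⟨x, hx⟩ : FA σ) ∈ (ph σ).range := by
    intro x hx
    rw [AddMonoidHom.mem_range]
    constructor
    · rintro ⟨y, hy, h⟩
      exact ⟨⟨y, hy⟩, Subtype.ext h⟩
    · rintro ⟨y, h⟩
      exact ⟨y, y.2, congrArg Subtype.val h⟩
  have hadd : ∀ x y, σ x = x → σ y = y → χ (x + y) = χ x * χ y := by
    intro x y hx hy
    have hxy : σ (x + y) = x + y := by rw [map_add, hx, hy]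
    have h := AddSubgroup.add_mem_iff_of_index_two (index_range σ) (a := ⟨x, hx⟩) (b := ⟨y, hy⟩)
    have e1 : (⟨x, hx⟩ + ⟨y, hy⟩ : FA σ) = ⟨x + y, hxy⟩ := rfl
    rw [e1, ← hmem x hx, ← hmem y hy, ← hmem (x + y) hxy] at h
    simp only [hχ]
    by_cases h5 : ∃ z, σ z = z ∧ z ^ 2 + z = x <;> by_cases h6 : ∃ z, σ z = z ∧ z ^ 2 + z = y
    · rw [if_pos h5, if_pos h6, if_pos (h.2 ⟨fun _ => h6, fun _ => h5⟩)]; norm_num
    · rw [if_pos h5, if_neg h6, if_neg (fun h7 => h6 ((h.1 h7).1 h5))]; norm_num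
    · rw [if_neg h5, if_pos h6, if_neg (fun h7 => h5 ((h.1 h7).2 h6))]; norm_num
    · rw [if_neg h5, if_neg h6, if_pos (h.2 ⟨fun h7 => absurd h7 h5, fun h7 => absurd h7 h6⟩)]
      norm_num
  refine ⟨χ, h8, h4, ?_, hadd, ?_, ?_, ?_⟩
  · intro x _
    simp only [hχ]
    split_ifs
    · exact Or.inl rfl
    · exact Or.inr rfl
  · intro x hx
    have hx2 : σ (x ^ 2 + x) = x ^ 2 + x := by rw [map_add, map_pow, hx]
    have e : x ^ 2 = x + (x ^ 2 + x) := by linear_combination -x * h2
    have h3 := hadd x (x ^ 2 + x) hx hx2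
    rw [← e] at h3
    rw [h3]
    have h4' : χ (x ^ 2 + x) = 1 := if_pos ⟨x, hx, rfl⟩
    rw [h4', mul_one]
  · intro x _
    simp only [hχ]
    constructor
    · intro h
      by_contra hcon
      rw [if_neg hcon] at h
      norm_num at h
    · intro h
      rw [if_pos h]
  · have hne : (ph σ).range ≠ ⊤ := by
      intro h
      have := index_range σ
      rw [h, AddSubgroup.index_top] at this
      norm_num at this
    obtain ⟨x, hx⟩ : ∃ x, x ∉ (ph σ).range := by
      by_contra hcon
      push Not at hcon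
      exact hne (eq_top_iff.2 fun x _ => hcon x)
    refine ⟨x, x.2, ?_⟩
    have : ¬ ∃ y, σ y = y ∧ y ^ 2 + y = (x : K) := fun h => hx ((hmem x x.2).1 h)
    exact if_neg this

end Pool.Agent.R916.MR

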