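import Pool.Agent.R793.MR.Stm

/-! Piece MR-IND for MP_e79d62_co: Dedekind independence and cardinals of fixed fields. -/

set_option autoImplicit false

open Finset

namespace Pool.Agent.R916.MR

open Pool.Agent.R793.MR

section
variable {K : Type} [Field K] [Fintype K] (σ : K ≃+* K)
  (h8 : ∀ x, σ (σ (σ (σ (σ (σ (σ (σ x))))))) = x) (h4 : ∃ x, σ (σ (σ (σ x))) ≠ x)

include h8 h4

lemma order8 : orderOf σ = 8 := by
  have h : orderOf σ = 2 ^ (2 + 1) := by
    apply orderOf_eq_prime_pow
    · intro h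
      obtain ⟨x, hx⟩ := h4
      apply hx
      have := congrArg (fun f : K ≃+* K => f x) h
      simpa [pow_succ] using this
    · ext x
      have := h8 x
      simpa [pow_succ] using this
  simpa using h

lemma ind (b0 b1 b2 b3 b4 b5 b6 b7 : K) (h : ∀ y : K, b0 * y + b1 * σ y + b2 * σ (σ y) +
    b3 * σ (σ (σ y)) + b4 * σ (σ (σ (σ y))) + b5 * σ (σ (σ (σ (σ y)))) +
    b6 * σ (σ (σ (σ (σ (σ y))))) + b7 * σ (σ (σ (σ (σ (σ (σ y)))))) = 0) :
    b0 = 0 ∧ b1 = 0 ∧ b2 = 0 ∧ b3 = 0 ∧ b4 = 0 ∧ b5 = 0 ∧ b6 = 0 ∧ b7 = 0 := by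
  have h1 := linearIndependent_monoidHom K K
  let f : Fin 8 → (K →* K) := fun i => ((σ ^ (i : ℕ) : K ≃+* K) : K →* K)
  have hf : Function.Injective f := by
    intro i j hij
    have e : σ ^ (i : ℕ) = σ ^ (j : ℕ) := by
      ext x
      exact DFunLike.congr_fun hij x
    have := pow_inj_mod.1 e
    rw [order8 σ h8 h4] at this
    ext
    rw [Nat.mod_eq_of_lt i.2, Nat.mod_eq_of_lt j.2] at this
    exact this
  have h2 := h1.comp f hf
  rw [Fintype.linearIndependent_iff] at h2
  have h3 := h2 ![b0, b1, b2, b3, b4, b5, b6, b7] (by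
    ext y
    simp only [Finset.sum_apply, Pi.smul_apply, smul_eq_mul, Function.comp]
    have e := h y
    simp [Fin.sum_univ_succ, f, pow_succ]
    linear_combination e)
  exact ⟨h3 0, h3 1, h3 2, h3 3, h3 4, h3 5, h3 6, h3 7⟩

end

section
variable {K : Type} [Field K] [Fintype K] [DecidableEq K] [CharP K 2]

/-- the number of fixed points of `τ²` -/
lemma card_sq (τ : K ≃+* K) (e : K) (he : τ e = e + 1) :
    (univ.filter (fun x => τ (τ x) = x)).card = (univ.filter (fun x => τ x = x)).card ^ 2 := by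
  have h2 : (2 : K) = 0 := CharTwo.two_eq_zero
  rw [pow_two, ← card_product]
  refine card_nbij' (fun c => (c + τ c, c + (c + τ c) * e)) (fun b => b.2 + b.1 * e) ?_ ?_ ?_ ?_
  · intro c hc
    simp only [coe_filter, Set.mem_ofPred_eq, mem_univ, true_and] at hc
    simp only [coe_product, Set.mem_prod, coe_filter, Set.mem_ofPred_eq, mem_univ, true_and]
    constructor
    · rw [map_add, hc]; ring
    · rw [map_add, map_mul, map_add, hc, he]
      linear_combination (c + τ c) * h2 - τ c * h2 + (τ c) * h2 - c * h2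
  · intro b hb
    simp only [coe_product, Set.mem_prod, coe_filter, Set.mem_ofPred_eq, mem_univ, true_and] at hb
    simp only [coe_filter, Set.mem_ofPred_eq, mem_univ, true_and]
    rw [map_add, map_mul, hb.1, hb.2, he, map_add, map_mul, hb.1, hb.2, map_add, he, map_one]
    linear_combination b.1 * h2
  · intro c _
    simp only
    linear_combination (c + τ c) * e * h2
  · intro b hb
    simp only [coe_product, Set.mem_prod, coe_filter, Set.mem_ofPred_eq, mem_univ, true_and] at hb
    simp only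
    have e1 : τ (b.2 + b.1 * e) = b.2 + b.1 * (e + 1) := by
      rw [map_add, map_mul, hb.1, hb.2, he]
    rw [e1]
    ext
    · simp only
      linear_combination (b.2 + b.1 * e) * h2
    · simp only
      linear_combination (b.1 * e + b.2 * e + b.1 * e * e) * h2

end

theorem stmInd : StmInd := by
  intro K _ _ _ _ σ h8 h4
  have h2 : (2 : K) = 0 := CharTwo.two_eq_zero
  -- an element of nonzero trace
  obtain ⟨z0, hz0⟩ : ∃ z : K, z + σ z + σ (σ z) + σ (σ (σ z)) + σ (σ (σ (σ z))) +
      σ (σ (σ (σ (σ z)))) + σ (σ (σ (σ (σ (σ z))))) + σ (σ (σ (σ (σ (σ (σ z)))))) ≠ 0 := by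
    by_contra hcon
    push Not at hcon
    have := ind σ h8 h4 1 1 1 1 1 1 1 1 (fun y => by simpa only [one_mul] using hcon y)
    exact one_ne_zero this.1
  set f : K := z0 + σ z0 + σ (σ z0) + σ (σ (σ z0)) + σ (σ (σ (σ z0))) +
      σ (σ (σ (σ (σ z0)))) + σ (σ (σ (σ (σ (σ z0))))) + σ (σ (σ (σ (σ (σ (σ z0)))))) with hf
  have hσf : σ f = f := by
    rw [hf]
    simp only [map_add]
    rw [h8 z0]
    ring
  set z : K := (z0 + σ z0 + σ (σ z0) + σ (σ (σ z0))) / f with hz
  have hz4 : z + σ (σ (σ (σ z))) = 1 := by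
    rw [hz]
    simp only [map_div₀, map_add, hσf]
    rw [← add_div, div_eq_one_iff_eq hz0, hf]
    ring
  set th : K := (z0 + σ (σ (σ (σ z0)))) / f with hth
  have hth4 : σ (σ (σ (σ th))) = th := by
    rw [hth]
    simp only [map_div₀, map_add, hσf]
    rw [h8 z0]
    ring
  have htr : tr4 σ th = 1 := by
    unfold tr4
    rw [hth]
    simp only [map_div₀, map_add, hσf]
    rw [← add_div, ← add_div, ← add_div, div_eq_one_iff_eq hz0, hf]
    ring
  have htr' : th + σ th + σ (σ th) + σ (σ (σ th)) = 1 := htr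
  set ze : K := th + σ (σ th) with hze
  have hze1 : σ ze = ze + 1 := by
    rw [hze, map_add, ← htr']
    linear_combination (-th - σ (σ th)) * h2
  set w : K := ze * σ th + σ (σ th) + (1 + ze) * σ (σ (σ th)) with hw
  have hw1 : σ w = w + ze := by
    rw [hw]
    simp only [map_add, map_mul, map_one, hze1, hth4]
    linear_combination ze * htr' + (th - ze * (σ th + σ (σ (σ th)))) * h2
  have hw2 : σ (σ w) = w + 1 := by
    rw [hw1, map_add, hw1, hze1]
    linear_combination ze * h2
  clear_value w ze th z f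
  have hcM : (univ.filter (fun x => σ (σ x) = x)).card = (FF σ).card ^ 2 := card_sq σ ze hze1
  have hcL : (univ.filter (fun x => σ (σ (σ (σ x))) = x)).card = (FF σ).card ^ 4 := by
    have h3 := card_sq (σ.trans σ) w hw2
    have e1 : (univ.filter (fun x => (σ.trans σ) ((σ.trans σ) x) = x)) =
      univ.filter (fun x => σ (σ (σ (σ x))) = x) := rfl
    have e2 : (univ.filter (fun x => (σ.trans σ) x = x)) = univ.filter (fun x => σ (σ x) = x) := rfl
    rw [e1, e2, hcM, ← pow_mul] at h3
    exact h3
  refine ⟨?_, ?_, ⟨z, hz4⟩, ⟨th, hth4, htr⟩, ⟨w, ze, hw1, hze1⟩, hcM⟩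
  · intro k0 k1 k2 k3 k h
    have hk : k = 0 := by
      have h3 := h 1 (by
        unfold VV
        rw [mem_filter]
        refine ⟨mem_univ _, ?_⟩
        simp only [map_one, map_add])
      simp only [map_one] at h3
      linear_combination h3 - (k0 + k1 + k2 + k3) * h2
    have h3 := ind σ h8 h4 k0 k1 k2 k3 k0 k1 k2 k3 (fun y => by
      have h5 := h (y + σ y + σ (σ y) + σ (σ (σ y))) (by
        unfold VV
        rw [mem_filter]
        refine ⟨mem_univ _, ?_⟩
        simp only [map_add]
        rw [h8 y]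
        ring)
      simp only [map_add, hk] at h5
      have e8 : σ (σ (σ (σ (σ (σ (σ (σ y))))))) = y := h8 y
      linear_combination h5 - (k0 * (σ y + σ (σ y) + σ (σ (σ y))) +
        k1 * (σ (σ y) + σ (σ (σ y)) + σ (σ (σ (σ y)))) +
        k2 * (σ (σ (σ y)) + σ (σ (σ (σ y))) + σ (σ (σ (σ (σ y))))) +
        k3 * (σ (σ (σ (σ y))) + σ (σ (σ (σ (σ y)))) + σ (σ (σ (σ (σ (σ y))))))) * h2)
    exact ⟨h3.1, h3.2.1, h3.2.2.1, h3.2.2.2.1, hk⟩
  · have h3 : (VV σ).card = (FF σ ×ˢ (univ.filter (fun x => σ (σ (σ (σ x))) = x))).card := by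
      refine card_nbij' (fun c => (c + σ (σ (σ (σ c))), c + (c + σ (σ (σ (σ c)))) * z))
        (fun b => b.2 + b.1 * z) ?_ ?_ ?_ ?_
      · intro c hc
        unfold VV at hc
        simp only [coe_filter, Set.mem_ofPred_eq, mem_univ, true_and] at hc
        unfold FF
        simp only [coe_product, Set.mem_prod, coe_filter, Set.mem_ofPred_eq, mem_univ, true_and]
        refine ⟨hc, ?_⟩
        have e4 : σ (σ (σ (σ (c + σ (σ (σ (σ c))))))) = c + σ (σ (σ (σ c))) := by
          rw [hc, hc, hc, hc]
        have e5 : σ (σ (σ (σ (c + (c + σ (σ (σ (σ c)))) * z)))) =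
            σ (σ (σ (σ c))) + σ (σ (σ (σ (c + σ (σ (σ (σ c))))))) * σ (σ (σ (σ z))) := by
          simp only [map_add, map_mul]
        rw [e5, e4]
        linear_combination (c + σ (σ (σ (σ c)))) * hz4 +
          (σ (σ (σ (σ c))) - (c + σ (σ (σ (σ c)))) * z) * h2
      · intro b hb
        unfold FF at hb
        simp only [coe_product, Set.mem_prod, coe_filter, Set.mem_ofPred_eq, mem_univ, true_and] at hb
        unfold VV
        simp only [coe_filter, Set.mem_ofPred_eq, mem_univ, true_and]
        have e4 : σ (σ (σ (σ (b.2 + b.1 * z)))) = b.2 + b.1 * σ (σ (σ (σ z))) := by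
          simp only [map_add, map_mul, hb.1, hb.2]
        have e5 : b.2 + b.1 * z + σ (σ (σ (σ (b.2 + b.1 * z)))) = b.1 := by
          rw [e4]
          linear_combination b.1 * hz4 + b.2 * h2
        rw [e5, hb.1]
      · intro c _
        simp only
        linear_combination (c + σ (σ (σ (σ c)))) * z * h2
      · intro b hb
        unfold FF at hb
        simp only [coe_product, Set.mem_prod, coe_filter, Set.mem_ofPred_eq, mem_univ, true_and] at hb
        simp only
        have e4 : σ (σ (σ (σ (b.2 + b.1 * z)))) = b.2 + b.1 * σ (σ (σ (σ z))) := by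
          simp only [map_add, map_mul, hb.1, hb.2]
        have e5 : b.2 + b.1 * z + σ (σ (σ (σ (b.2 + b.1 * z)))) = b.1 := by
          rw [e4]
          linear_combination b.1 * hz4 + b.2 * h2
        rw [e5]
        ext
        · rfl
        · simp only
          linear_combination b.1 * z * h2
    rw [h3, card_product, hcL]
    ring

end Pool.Agent.R916.MR

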